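import Pool.Agent.H171.SepCA.Key
set_option autoImplicit false
set_option linter.all false

open Finset Polynomial

noncomputable section

namespace Pool.Agent.H171.SepCA

variable {p : ℕ} [hp : Fact p.Prime]

theorem sum_pow_card : ∑ x : ZMod p, x ^ (p - 1) = -1 := by
  classical
  have hp1 : 0 < p - 1 := by have := hp.out.one_lt; omega
  have e : ∀ x : ZMod p, x ^ (p - 1) = 1 - (if x = 0 then 1 else 0) := by
    intro x
    split_ifs with h
    · rw [h, zero_pow hp1.ne']; ring
    · rw [ZMod.pow_card_sub_one_eq_one h]; ring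
  rw [sum_congr rfl (fun x _ => e x), sum_sub_distrib]
  simp

theorem sum_eval (Q : (ZMod p)[X]) (hQ : Q.natDegree ≤ p - 1) :
    ∑ x : ZMod p, Q.eval x = - Q.coeff (p - 1) := by
  classical
  have hp1 : 0 < p - 1 := by have := hp.out.one_lt; omega
  have e1 : ∀ x : ZMod p, Q.eval x = ∑ i ∈ range (p - 1 + 1), Q.coeff i * x ^ i := fun x =>
    eval_eq_sum_range' (by omega) x
  rw [sum_congr rfl (fun x _ => e1 x), sum_comm, sum_range_succ]
  have e2 : ∑ i ∈ range (p - 1), ∑ x : ZMod p, Q.coeff i * x ^ i = 0 := by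
    apply sum_eq_zero
    intro i hi
    rw [← mul_sum, FiniteField.sum_pow_lt_card_sub_one, mul_zero]
    rw [ZMod.card]; exact mem_range.mp hi
  rw [e2, zero_add, ← mul_sum, sum_pow_card]
  ring

theorem nonperm (P : (ZMod p)[X]) (d : ℕ) (hd : 2 ≤ d) (hdp : d ∣ p - 1)
    (hP : P.natDegree ≤ d) (hc : P.coeff d ≠ 0) :
    ¬ Function.Bijective (fun a => P.eval a) := by
  intro hb
  have hp1 : 0 < p - 1 := by have := hp.out.one_lt; omega
  obtain ⟨k, hk⟩ := hdp
  have hk0 : 0 < k := by
    rcases Nat.eq_zero_or_pos k with h | h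
    · rw [h] at hk; omega
    · exact h
  have hdeg : P.natDegree = d := le_antisymm hP (le_natDegree_of_ne_zero hc)
  have h1 : ∑ a : ZMod p, (P.eval a) ^ k = ∑ a : ZMod p, a ^ k :=
    (Equiv.ofBijective _ hb).sum_comp (fun a => a ^ k)
  have h2 : ∑ a : ZMod p, a ^ k = 0 := by
    apply FiniteField.sum_pow_lt_card_sub_one
    rw [ZMod.card]
    nlinarith
  have h3 : ∑ a : ZMod p, (P.eval a) ^ k = - (P ^ k).coeff (p - 1) := by
    rw [← sum_eval]
    · apply sum_congr rfl; intro a _; rw [eval_pow]
    · rw [natDegree_pow, hdeg, hk]; exact le_of_eq (mul_comm _ _)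
  have h4 : (P ^ k).coeff (p - 1) = P.coeff d ^ k := by
    have : (P ^ k).natDegree = p - 1 := by rw [natDegree_pow, hdeg, hk]; ring
    rw [← this, coeff_natDegree, leadingCoeff_pow, leadingCoeff, hdeg]
  rw [h1, h2, h4] at h3
  exact pow_ne_zero k hc (by simpa using h3.symm)

theorem window (n m : ℕ) (hm : 0 < m) (G : ℕ → (ZMod p)[X]) (t : ℕ → ZMod p)
    (ht : ∀ i, m ≤ i → t i = 0) (ht0 : t 0 ≠ 0)
    (hw : ∀ i < m + n, ∃ d, 2 ≤ d ∧ d ∣ p - 1 ∧
      (∀ j ∈ range (n + 1), (if j ≤ i then t (i - j) else 0) ≠ 0 → (G j).natDegree ≤ d) ∧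
      ∑ j ∈ range (n + 1), (if j ≤ i then t (i - j) else 0) * (G j).coeff d ≠ 0) :
    ¬ Function.Surjective (sca n (fun j a => (G j).eval a)) := by
  intro hs
  apply key n m hm (fun j a => (G j).eval a) hs t ht 0 hm ht0
  intro i hi hb
  obtain ⟨d, hd2, hdp, h1, h2⟩ := hw i hi
  apply nonperm (∑ j ∈ range (n + 1), C (if j ≤ i then t (i - j) else 0) * G j) d hd2 hdp
  · apply natDegree_sum_le_of_forall_le
    intro j hj
    by_cases h0 : (if j ≤ i then t (i - j) else 0) = 0
    · rw [h0]; simp
    · exact (natDegree_C_mul_le _ _).trans (h1 j hj h0)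
  · rw [finset_sum_coeff]
    simp only [coeff_C_mul]
    exact h2
  · have e : (fun a => eval a (∑ j ∈ range (n + 1), C (if j ≤ i then t (i - j) else 0) * G j)) =
        (fun a => ∑ j ∈ range (n + 1), (if j ≤ i then t (i - j) else 0) * (G j).eval a) := by
      funext a
      rw [eval_finset_sum]
      simp only [eval_mul, eval_C]
    rw [e]; exact hb

/-- every polynomial with nonzero constant term divides some `X ^ N - 1` -/
theorem dvd_pow_sub_one (D : (ZMod p)[X]) (hD : D.coeff 0 ≠ 0) :
    ∃ N : ℕ, 0 < N ∧ D ∣ X ^ N - 1 := by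
  classical
  have hD0 : D ≠ 0 := by rintro rfl; simp at hD
  have hfin : Finite (degreeLT (ZMod p) D.natDegree) :=
    Finite.of_equiv _ (degreeLTEquiv (ZMod p) D.natDegree).toEquiv.symm
  have hmem : ∀ i : ℕ, (X ^ i % D : (ZMod p)[X]) ∈ degreeLT (ZMod p) D.natDegree := by
    intro i
    rw [mem_degreeLT]
    have := degree_mod_lt (X ^ i : (ZMod p)[X]) hD0
    rwa [degree_eq_natDegree hD0] at this
  obtain ⟨i, j, hij, he⟩ := Finite.exists_ne_map_eq_of_infinite
    (fun i : ℕ => (⟨X ^ i % D, hmem i⟩ : degreeLT (ZMod p) D.natDegree))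
  have he' : (X ^ i % D : (ZMod p)[X]) = X ^ j % D := by
    have := congrArg Subtype.val he
    exact this
  have hcop : IsCoprime (X : (ZMod p)[X]) D := by
    rw [irreducible_X.coprime_iff_not_dvd, X_dvd_iff]; exact hD
  have main : ∀ i j : ℕ, i < j → (X ^ i % D : (ZMod p)[X]) = X ^ j % D →
      ∃ N : ℕ, 0 < N ∧ D ∣ X ^ N - 1 := by
    intro i j hlt h
    refine ⟨j - i, by omega, ?_⟩
    have h1 := EuclideanDomain.div_add_mod (X ^ i : (ZMod p)[X]) D
    have h2 := EuclideanDomain.div_add_mod (X ^ j : (ZMod p)[X]) D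
    have h3 : D ∣ X ^ i * (X ^ (j - i) - 1) := by
      refine ⟨X ^ j / D - X ^ i / D, ?_⟩
      have h4 : (X : (ZMod p)[X]) ^ i * X ^ (j - i) = X ^ j := by
        rw [← pow_add]; congr 1; omega
      rw [mul_sub, h4, mul_one, mul_sub]
      rw [← h2, ← h1, h]
      have e1 : (D * (X ^ j / D) + X ^ j % D) / D = X ^ j / D := by rw [h2]
      have e2 : (D * (X ^ i / D) + X ^ j % D) / D = X ^ i / D := by rw [← h, h1]
      rw [e1, e2]
      ring
    exact (hcop.pow_left (m := i)).symm.dvd_of_dvd_mul_left h3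
  rcases lt_or_gt_of_ne hij with h | h
  · exact main i j h he'
  · exact main j i h he'.symm

theorem caseA (n d : ℕ) (hd : 2 ≤ d) (hdp : d ∣ p - 1) (G : ℕ → (ZMod p)[X])
    (hG : ∀ j ≤ n, (G j).natDegree ≤ d) (h0 : (G 0).coeff d ≠ 0) (hn : (G n).coeff d ≠ 0) :
    ¬ Function.Surjective (sca n (fun j a => (G j).eval a)) := by
  classical
  obtain ⟨β, hβ⟩ : ∃ β : (ZMod p)[X], β = ∑ j ∈ range (n + 1), C ((G j).coeff d) * X ^ j :=
    ⟨_, rfl⟩
  have hcoef : ∀ k, β.coeff k = if k ≤ n then (G k).coeff d else 0 := by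
    intro k
    rw [hβ, finset_sum_coeff]
    simp only [coeff_C_mul, coeff_X_pow, mul_ite, mul_one, mul_zero]
    rw [sum_ite_eq]
    simp only [mem_range, Nat.lt_succ_iff]
  have hβ0 : β.coeff 0 ≠ 0 := by rw [hcoef]; simpa using h0
  have hβn : β.natDegree = n := by
    apply le_antisymm
    · rw [natDegree_le_iff_coeff_eq_zero]
      intro k hk
      rw [hcoef, if_neg (by omega)]
    · apply le_natDegree_of_ne_zero
      rw [hcoef, if_pos le_rfl]; exact hn
  obtain ⟨N, hN, c, hc⟩ := dvd_pow_sub_one ((X - 1) * β) (by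
    rw [mul_coeff_zero]; simpa using hβ0)
  have hX1 : (X - 1 : (ZMod p)[X]) ≠ 0 := by
    have := X_sub_C_ne_zero (1 : ZMod p)
    simpa using this
  have hgeom : β * c = ∑ i ∈ range N, (X : (ZMod p)[X]) ^ i := by
    apply mul_left_cancel₀ hX1
    rw [← mul_assoc, ← hc, mul_geom_sum]
  have hcN : ∀ k, (β * c).coeff k = if k < N then 1 else 0 := by
    intro k
    rw [hgeom, finset_sum_coeff]
    simp only [coeff_X_pow]
    rw [sum_ite_eq]
    simp only [mem_range]
  have hne : β * c ≠ 0 := by
    intro h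
    have := hcN 0
    rw [h, if_pos hN] at this
    simp at this
  have hβne : β ≠ 0 := left_ne_zero_of_mul hne
  have hcne : c ≠ 0 := right_ne_zero_of_mul hne
  have hdegs : n + c.natDegree = N - 1 := by
    have h1 : (β * c).natDegree = N - 1 := by
      apply le_antisymm
      · rw [natDegree_le_iff_coeff_eq_zero]
        intro k hk
        rw [hcN, if_neg (by omega)]
      · apply le_natDegree_of_ne_zero
        rw [hcN, if_pos (by omega)]; exact one_ne_zero
    rw [natDegree_mul hβne hcne, hβn] at h1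
    exact h1
  have hc0 : c.coeff 0 ≠ 0 := by
    intro h
    have := hcN 0
    rw [mul_coeff_zero, h, mul_zero, if_pos hN] at this
    exact zero_ne_one this
  apply window n (N - n) (by omega) G (fun i => c.coeff i)
  · intro i hi
    exact coeff_eq_zero_of_natDegree_lt (by omega)
  · exact hc0
  · intro i hi
    refine ⟨d, hd, hdp, fun j hj _ => hG j (by have := mem_range.mp hj; omega), ?_⟩
    have h1 := hcN i
    rw [if_pos (by omega), mul_comm, hβ, mul_sum, finset_sum_coeff] at h1
    have h2 : ∑ j ∈ range (n + 1), (if j ≤ i then c.coeff (i - j) else 0) * (G j).coeff d = 1 := by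
      rw [← h1]
      apply sum_congr rfl
      intro j _
      rw [show c * (C ((G j).coeff d) * X ^ j) = C ((G j).coeff d) * (c * X ^ j) by ring,
        coeff_C_mul, coeff_mul_X_pow']
      ring
    rw [h2]; exact one_ne_zero

theorem exists_seq (hp3 : 3 ≤ p) (b : ℕ → ZMod p) (hb : b 0 ≠ 0) (n : ℕ) :
    ∃ c : ℕ → ZMod p, (∀ i < n, c i ≠ 0) ∧ ∀ i < n, ∑ j ∈ range (i + 1), b j * c (i - j) ≠ 0 := by
  classical
  induction n with
  | zero => exact ⟨fun _ => 0, by simp, by simp⟩
  | succ n ih =>
    obtain ⟨c, hc1, hc2⟩ := ih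
    obtain ⟨S, hS⟩ : ∃ S, S = ∑ j ∈ range n, b (j + 1) * c (n - (j + 1)) := ⟨_, rfl⟩
    obtain ⟨v, hv⟩ : ∃ v : ZMod p, v ∉ ({0, -S / b 0} : Finset (ZMod p)) := by
      by_contra hcon
      push Not at hcon
      have h1 : (univ : Finset (ZMod p)) ⊆ {0, -S / b 0} := fun v _ => hcon v
      have h2 := card_le_card h1
      have h3 : ({0, -S / b 0} : Finset (ZMod p)).card ≤ 2 := card_le_two
      rw [card_univ, ZMod.card] at h2
      omega
    rw [mem_insert, mem_singleton, not_or] at hv
    refine ⟨fun i => if i = n then v else c i, ?_, ?_⟩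
    · intro i hi
      by_cases h : i = n
      · simp only [h, if_true]; exact hv.1
      · simp only [h, if_false]; exact hc1 i (by omega)
    · intro i hi
      by_cases h : i = n
      · subst h
        rw [sum_range_succ']
        have e1 : ∑ k ∈ range i, b (k + 1) * (if i - (k + 1) = i then v else c (i - (k + 1))) = S := by
          rw [hS]
          apply sum_congr rfl
          intro k hk
          have := mem_range.mp hk
          rw [if_neg (by omega)]
        rw [e1, Nat.sub_zero]
        have e2 : (fun i_1 => if i_1 = i then v else c i_1) i = v := by simp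
        rw [e2]
        intro h0
        apply hv.2
        rw [eq_div_iff hb]
        linear_combination h0
      · have e1 : ∑ j ∈ range (i + 1), b j * (if i - j = n then v else c (i - j)) =
            ∑ j ∈ range (i + 1), b j * c (i - j) := by
          apply sum_congr rfl
          intro k hk
          rw [if_neg (by omega)]
        rw [e1]; exact hc2 i (by omega)

theorem caseC (n d0 dn : ℕ) (hn1 : 0 < n) (hd0 : 2 ≤ d0) (hdp0 : d0 ∣ p - 1) (hlt : d0 < dn)
    (hdpn : dn ∣ p - 1) (G : ℕ → (ZMod p)[X])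
    (hG : ∀ j < n, (G j).natDegree ≤ d0) (hGn : (G n).natDegree ≤ dn)
    (h0 : (G 0).coeff d0 ≠ 0) (hn : (G n).coeff dn ≠ 0) :
    ¬ Function.Surjective (sca n (fun j a => (G j).eval a)) := by
  classical
  have hp1 : 0 < p - 1 := by have := hp.out.one_lt; omega
  have hp3 : 3 ≤ p := by
    have := Nat.le_of_dvd hp1 hdp0
    omega
  obtain ⟨c, hc1, hc2⟩ := exists_seq hp3 (fun j => (G j).coeff d0) h0 n
  apply window n n hn1 G (fun i => if i < n then c i else 0)
  · intro i hi
    rw [if_neg (by omega)]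
  · rw [if_pos hn1]; exact hc1 0 hn1
  · intro i hi
    rcases Nat.lt_or_ge i n with hin | hin
    · refine ⟨d0, hd0, hdp0, ?_, ?_⟩
      · intro j hj hne
        have hj' := mem_range.mp hj
        have hji : j ≤ i := by
          by_contra hcon
          rw [if_neg hcon] at hne
          exact hne rfl
        exact hG j (by omega)
      · have e : ∑ j ∈ range (n + 1), (if j ≤ i then (if i - j < n then c (i - j) else 0) else 0) *
            (G j).coeff d0 = ∑ j ∈ range (i + 1), (G j).coeff d0 * c (i - j) := by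
          symm
          apply sum_subset_zero_on_sdiff
          · intro j hj
            rw [mem_range] at hj ⊢
            omega
          · intro j hj
            rw [mem_sdiff, mem_range, mem_range] at hj
            rw [if_neg (by omega), zero_mul]
          · intro j hj
            have := mem_range.mp hj
            rw [if_pos (by omega), if_pos (by omega), mul_comm]
        rw [e]; exact hc2 i hin
    · refine ⟨dn, by omega, hdpn, ?_, ?_⟩
      · intro j hj hne
        have hj' := mem_range.mp hj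
        rcases Nat.lt_or_ge j n with h2 | h2
        · exact (hG j h2).trans hlt.le
        · have : j = n := by omega
          rw [this]; exact hGn
      · rw [sum_eq_single_of_mem n (mem_range.mpr (by omega))]
        · rw [if_pos hin, if_pos (by omega)]
          exact mul_ne_zero (hc1 _ (by omega)) hn
        · intro j hj hjn
          have hj' := mem_range.mp hj
          rw [coeff_eq_zero_of_natDegree_lt ((hG j (by omega)).trans_lt hlt), mul_zero]

theorem reflect (n : ℕ) (h : ℕ → ZMod p → ZMod p) (hs : Function.Surjective (sca n h)) :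
    Function.Surjective (sca n (fun j => h (n - j))) := by
  intro y
  obtain ⟨x, hx⟩ := hs (fun i => y (-i - n))
  refine ⟨fun i => x (-i), ?_⟩
  funext i
  have h1 := congrFun hx (-i - n)
  simp only [sca] at h1 ⊢
  have e : -(-i - (n : ℤ)) - n = i := by ring
  rw [e] at h1
  rw [← h1, ← sum_range_reflect (fun j => h j (x (-i - (n : ℤ) + (j : ℕ)))) (n + 1)]
  apply sum_congr rfl
  intro j hj
  have hj' := mem_range.mp hj
  have e1 : n + 1 - 1 - j = n - j := by omega
  rw [e1, Nat.cast_sub (by omega)]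
  congr 2
  ring

theorem caseD (n d0 dn : ℕ) (hn1 : 0 < n) (hdn2 : 2 ≤ dn) (hdp0 : d0 ∣ p - 1) (hlt : dn < d0)
    (hdpn : dn ∣ p - 1) (G : ℕ → (ZMod p)[X])
    (hG : ∀ j, 0 < j → j ≤ n → (G j).natDegree ≤ dn) (hG0 : (G 0).natDegree ≤ d0)
    (h0 : (G 0).coeff d0 ≠ 0) (hn : (G n).coeff dn ≠ 0) :
    ¬ Function.Surjective (sca n (fun j a => (G j).eval a)) := by
  intro hs
  have h1 := reflect n _ hs
  refine caseC n dn d0 hn1 hdn2 hdpn hlt hdp0 (fun j => G (n - j)) ?_ ?_ ?_ ?_ h1
  · intro j hj
    exact hG (n - j) (by omega) (by omega)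
  · simpa using hG0
  · simpa using hn
  · simpa using h0

end Pool.Agent.H171.SepCA
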