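import Pool.Graph.R_seed8.X185.CA.Key
set_option autoImplicit false
set_option linter.all false

open Finset

noncomputable section

namespace Pool.Agent.H171.SepCA

open Pool.Agent.X185.CA

variable {p : ℕ} [hp : Fact p.Prime]

/-- the additively separable automaton `x ↦ (i ↦ ∑_{j ≤ n} h_j (x_{i+j}))` -/
def sca (n : ℕ) (h : ℕ → ZMod p → ZMod p) : (ℤ → ZMod p) → (ℤ → ZMod p) :=
  fun x i => ∑ j ∈ range (n + 1), h j (x (i + (j : ℕ)))

theorem key (n m : ℕ) (hm : 0 < m) (h : ℕ → ZMod p → ZMod p)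
    (hsurj : Function.Surjective (sca n h))
    (t : ℕ → ZMod p) (ht : ∀ i, m ≤ i → t i = 0) (r0 : ℕ) (hr0 : r0 < m) (htr : t r0 ≠ 0)
    (hnb : ∀ i < m + n, ¬ Function.Bijective (fun a => ∑ j ∈ range (n + 1),
      (if j ≤ i then t (i - j) else 0) * h j a)) : False := by
  classical
  obtain ⟨L, hL⟩ : ∃ L, L = m + n := ⟨_, rfl⟩
  have hLpos : 0 < L := by omega
  obtain ⟨Ψ, hΨ⟩ : ∃ Ψ : (Fin L → ZMod p) → (Fin L → ZMod p) → (Fin L → ZMod p), ∀ x x' r,
      Ψ x x' r = ∑ j ∈ range (n + 1), h j (bar2 x x' (r.1 + j)) :=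
    ⟨fun x x' r => _, fun x x' r => rfl⟩
  obtain ⟨K, hK⟩ : ∃ K : (Fin L → ZMod p) → (Fin m → ZMod p), ∀ x r,
      K x r = ∑ j ∈ range (n + 1), h j (bar x (r.1 + j)) :=
    ⟨fun x r => _, fun x r => rfl⟩
  obtain ⟨κ, hκ⟩ : ∃ κ : (Fin L → ZMod p) → (Fin m → ZMod p), ∀ y r, κ y r = bar y r.1 :=
    ⟨fun y r => _, fun y r => rfl⟩
  have h1 : ∀ x x', κ (Ψ x x') = K x := by
    intro x x'
    funext r
    have hr := r.2
    have a1 : bar (Ψ x x') r.1 = Ψ x x' ⟨r.1, by omega⟩ := by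
      unfold bar; rw [dif_pos (show r.1 < L by omega)]
    rw [hκ, a1, hΨ, hK]
    apply sum_congr rfl
    intro j hj
    have := mem_range.mp hj
    simp only [bar2]
    rw [if_pos (by omega)]
  have h2 : ∀ y : ℕ → (Fin L → ZMod p), ∃ x : ℕ → (Fin L → ZMod p), ∀ j,
      Ψ (x j) (x (j + 1)) = y j := by
    intro y
    obtain ⟨xc, hxc⟩ := hsurj (fun i => y (i.toNat / L) ⟨i.toNat % L, Nat.mod_lt _ hLpos⟩)
    refine ⟨fun j r => xc ((L * j + r.1 : ℕ) : ℤ), ?_⟩
    intro j
    funext r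
    have hr := r.2
    have hb : ∀ i : ℕ, i < 2 * L → bar2 (fun r : Fin L => xc ((L * j + r.1 : ℕ) : ℤ))
        (fun r : Fin L => xc ((L * (j + 1) + r.1 : ℕ) : ℤ)) i = xc ((L * j + i : ℕ) : ℤ) := by
      intro i hi
      unfold bar2 bar
      split_ifs with h3 h4
      · rfl
      · have e : L * (j + 1) + (i - L) = L * j + i := by rw [Nat.mul_succ]; omega
        show xc ((L * (j + 1) + (i - L) : ℕ) : ℤ) = _
        rw [e]
      · omega
    rw [hΨ]
    have h5 := congrFun hxc ((L * j + r.1 : ℕ) : ℤ)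
    simp only [sca] at h5
    have e1 : (((L * j + r.1 : ℕ) : ℤ)).toNat = L * j + r.1 := Int.toNat_natCast _
    have e2 : (L * j + r.1) / L = j := by
      rw [Nat.mul_add_div hLpos, Nat.div_eq_of_lt hr, add_zero]
    have e3 : (L * j + r.1) % L = r.1 := by
      rw [Nat.mul_add_mod, Nat.mod_eq_of_lt hr]
    have e5 : ∑ k ∈ range (n + 1), h k (bar2 (fun r : Fin L => xc ((L * j + r.1 : ℕ) : ℤ))
        (fun r : Fin L => xc ((L * (j + 1) + r.1 : ℕ) : ℤ)) (r.1 + k)) =
        ∑ k ∈ range (n + 1), h k (xc (((L * j + r.1 : ℕ) : ℤ) + (k : ℕ))) := by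
      apply sum_congr rfl
      intro k hk
      have := mem_range.mp hk
      rw [hb _ (by omega)]
      congr 2
      push_cast; ring
    rw [e5, h5]
    have e6 : ∀ (a b : ℕ) (ha : a = j) (hb : b < L) (hb' : b = r.1), y a ⟨b, hb⟩ = y j r := by
      intro a b ha hb hb'; subst ha; congr 1; exact Fin.ext hb'
    exact e6 _ _ (by rw [e1, e2]) _ (by rw [e1, e3])
  have hmain := sum_eq Ψ K κ h1 h2 rfl
    (fun w : Fin m → ZMod p => (ZMod.stdAddChar (∑ r, t r.1 * w r) : ℂ))
  have hleft : ∀ x : Fin L → ZMod p, ∑ r : Fin m, t r.1 * K x r =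
      ∑ i : Fin L, ∑ j ∈ range (n + 1), (if j ≤ i.1 then t (i.1 - j) else 0) * h j (x i) := by
    intro x
    have a1 : ∑ r : Fin m, t r.1 * K x r = ∑ r ∈ range m, ∑ j ∈ range (n + 1),
        t r * h j (bar x (r + j)) := by
      rw [← Fin.sum_univ_eq_sum_range (fun r => ∑ j ∈ range (n + 1), t r * h j (bar x (r + j))) m]
      apply sum_congr rfl; intro r _
      rw [hK, mul_sum]
    have a2 : ∑ i : Fin L, ∑ j ∈ range (n + 1), (if j ≤ i.1 then t (i.1 - j) else 0) * h j (x i) =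
        ∑ i ∈ range L, ∑ j ∈ range (n + 1), (if j ≤ i then t (i - j) else 0) * h j (bar x i) := by
      rw [← Fin.sum_univ_eq_sum_range (fun i => ∑ j ∈ range (n + 1),
        (if j ≤ i then t (i - j) else 0) * h j (bar x i)) L]
      apply sum_congr rfl; intro i _
      have : bar x i.1 = x i := by unfold bar; rw [dif_pos i.2]
      rw [this]
    rw [a1, a2, sum_comm, sum_comm (s := range L)]
    apply sum_congr rfl
    intro j hj
    have hj' := mem_range.mp hj
    exact shift_sum j m L (by omega) t (fun i => h j (bar x i)) ht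
  have hL1 : ∑ x : Fin L → ZMod p, (ZMod.stdAddChar (∑ r, t r.1 * K x r) : ℂ) ≠ 0 := by
    rw [sum_congr rfl (fun x _ => by rw [hleft x]),
      prod_form (fun (i : Fin L) a => ∑ j ∈ range (n + 1),
        (if j ≤ i.1 then t (i.1 - j) else 0) * h j a)]
    apply prod_ne_zero_iff.mpr
    intro i _
    exact sum_char_ne _ (hnb i.1 (by have := i.2; omega))
  have hR1 : ∑ y : Fin L → ZMod p, (ZMod.stdAddChar (∑ r, t r.1 * κ y r) : ℂ) = 0 := by
    have hright : ∀ y : Fin L → ZMod p, ∑ r : Fin m, t r.1 * κ y r =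
        ∑ i : Fin L, t i.1 * y i := by
      intro y
      have a1 : ∑ r : Fin m, t r.1 * κ y r = ∑ r ∈ range m, t r * bar y r := by
        rw [← Fin.sum_univ_eq_sum_range (fun r => t r * bar y r) m]
        apply sum_congr rfl; intro r _; rw [hκ]
      have a2 : ∑ i : Fin L, t i.1 * y i = ∑ i ∈ range L, t i * bar y i := by
        rw [← Fin.sum_univ_eq_sum_range (fun i => t i * bar y i) L]
        apply sum_congr rfl; intro i _
        have : bar y i.1 = y i := by unfold bar; rw [dif_pos i.2]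
        rw [this]
      have b1 := shift_sum 0 m L (by omega) t (fun i => bar y i) ht
      simp only [Nat.zero_le, if_true, Nat.sub_zero, add_zero] at b1
      rw [a1, a2, b1]
    rw [sum_congr rfl (fun y _ => by rw [hright y]),
      prod_form (fun (i : Fin L) a => t i.1 * a)]
    apply prod_eq_zero (i := (⟨r0, by omega⟩ : Fin L)) (mem_univ _)
    exact sum_char_bij _ (mulLeft_bijective₀ _ htr)
  exact hL1 (hmain.trans hR1)

end Pool.Agent.H171.SepCA
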