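import Pool.Agent.H171.SepCA.Deg
set_option autoImplicit false
set_option linter.all false

open Finset Polynomial

noncomputable section

namespace Pool.Agent.H171.SepCA

/-- the cellular automaton of radius `ρ` with local rule `f`; the arguments
`x_1, …, x_{2ρ+1}` of the local rule are indexed from `0` to `2ρ` -/
def globalMap {p : ℕ} (ρ : ℕ) (f : (Fin (2 * ρ + 1) → ZMod p) → ZMod p)
    (x : ℤ → ZMod p) (i : ℤ) : ZMod p :=
  f (fun j => x (i - ρ + (j : ℕ)))

theorem pow_mod {p : ℕ} [hp : Fact p.Prime] (q d : ℕ) (hq : 1 ≤ q) (hd : 1 ≤ d)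
    (h : q ≡ d [MOD p - 1]) (a : ZMod p) : a ^ q = a ^ d := by
  by_cases ha : a = 0
  · rw [ha, zero_pow (by omega), zero_pow (by omega)]
  · exact pow_eq_pow_of_modEq h (ZMod.pow_card_sub_one_eq_one ha)

theorem two_le_of {p : ℕ} [hp : Fact p.Prime] (q d : ℕ) (hd : d ∣ p - 1)
    (h : q ≡ d [MOD p - 1]) (hnc : ¬ q.Coprime (p - 1)) : 2 ≤ d := by
  have hp1 : 0 < p - 1 := by have := hp.out.one_lt; omega
  have h1 : q.gcd (p - 1) = d.gcd (p - 1) := h.gcd_eq
  rw [Nat.gcd_eq_left hd] at h1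
  have h2 : d ≠ 1 := by rw [← h1]; exact hnc
  have h3 : 0 < d := Nat.pos_of_dvd_of_pos hd hp1
  omega

theorem main (p : ℕ) [hp : Fact p.Prime] (ρ : ℕ) (f : (Fin (2 * ρ + 1) → ZMod p) → ZMod p)
    (l r : Fin (2 * ρ + 1)) (hlr : l < r) (al ar : ZMod p) (hal : al ≠ 0) (har : ar ≠ 0)
    (ql qr : ℕ) (hql : 1 ≤ ql) (hqr : 1 ≤ qr) (φ : Fin (2 * ρ + 1) → ZMod p → ZMod p)
    (hf : ∀ x, f x = (∑ j ∈ Ioo l r, φ j (x j)) + al * x l ^ ql + ar * x r ^ qr)
    (dl dr : ℕ) (hdl : dl ∣ p - 1) (hdr : dr ∣ p - 1)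
    (hcl : ql ≡ dl [MOD p - 1]) (hcr : qr ≡ dr [MOD p - 1])
    (hφ : ∀ j ∈ Ioo l r, ∃ G : (ZMod p)[X], (∀ a, φ j a = G.eval a) ∧
      G.natDegree ≤ min dl dr)
    (hsurj : Function.Surjective (globalMap ρ f)) :
    ql.Coprime (p - 1) ∨ qr.Coprime (p - 1) := by
  classical
  by_contra hcon
  rw [not_or] at hcon
  have h2l : 2 ≤ dl := two_le_of ql dl hdl hcl hcon.1
  have h2r : 2 ≤ dr := two_le_of qr dr hdr hcr hcon.2
  have hlr' : l.1 < r.1 := hlr
  choose! G hG using hφ
  obtain ⟨n, hn⟩ : ∃ n, n = r.1 - l.1 := ⟨_, rfl⟩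
  have hn0 : 0 < n := by omega
  obtain ⟨GG, hGG⟩ : ∃ GG : ℕ → (ZMod p)[X], ∀ k, GG k = if k = 0 then C al * X ^ dl else
    if k = n then C ar * X ^ dr else
    (if h : l.1 + k < 2 * ρ + 1 then G ⟨l.1 + k, h⟩ else 0) := ⟨fun k => _, fun k => rfl⟩
  have g0 : GG 0 = C al * X ^ dl := by rw [hGG, if_pos rfl]
  have gn : GG n = C ar * X ^ dr := by rw [hGG, if_neg (by omega), if_pos rfl]
  have gi : ∀ j ∈ Ioo l r, GG (j.1 - l.1) = G j := by
    intro j hj
    rw [mem_Ioo] at hj
    have h1 : l.1 < j.1 := hj.1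
    have h2 : j.1 < r.1 := hj.2
    have h3 := j.2
    rw [hGG, if_neg (by omega), if_neg (by omega), dif_pos (by omega)]
    congr 1
    apply Fin.ext
    show l.1 + (j.1 - l.1) = j.1
    omega
  -- surjectivity of the associated automaton
  have hs : Function.Surjective (sca n (fun j a => (GG j).eval a)) := by
    intro y
    obtain ⟨x, hx⟩ := hsurj (fun i => y (i - ρ + l.1))
    refine ⟨x, ?_⟩
    funext i
    have h4 := congrFun hx (i + ρ - l.1)
    simp only [globalMap, hf] at h4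
    have e0 : i + (ρ : ℤ) - (l.1 : ℤ) - ρ + (l.1 : ℤ) = i := by ring
    have e2 : i + (ρ : ℤ) - (l.1 : ℤ) - ρ + (r.1 : ℤ) = i + (n : ℤ) := by
      rw [hn, Nat.cast_sub hlr'.le]; ring
    rw [e0, e2] at h4
    rw [← h4]
    simp only [sca]
    have hr : range (n + 1) = insert 0 (insert n (Ioo 0 n)) := by
      ext k; simp only [mem_range, mem_insert, mem_Ioo]; omega
    rw [hr, sum_insert (by simp; omega), sum_insert (by simp), g0, gn]
    have e3 : ∑ k ∈ Ioo 0 n, (GG k).eval (x (i + (k : ℕ))) =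
        ∑ j ∈ Ioo l r, φ j (x (i + ρ - (l.1 : ℤ) - ρ + (j.1 : ℕ))) := by
      symm
      apply sum_bij (fun (j : Fin (2 * ρ + 1)) _ => j.1 - l.1)
      · intro j hj
        rw [mem_Ioo] at hj ⊢
        have h1 : l.1 < j.1 := hj.1
        have h2 : j.1 < r.1 := hj.2
        omega
      · intro j hj j' hj' h
        rw [mem_Ioo] at hj hj'
        have h1 : l.1 < j.1 := hj.1
        have h2 : l.1 < j'.1 := hj'.1
        apply Fin.ext
        omega
      · intro k hk
        rw [mem_Ioo] at hk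
        have h2 := r.2
        refine ⟨⟨l.1 + k, by omega⟩, ?_, ?_⟩
        · rw [mem_Ioo]
          constructor
          · show l.1 < l.1 + k
            omega
          · show l.1 + k < r.1
            omega
        · show l.1 + k - l.1 = k
          omega
      · intro j hj
        rw [gi j hj, (hG j hj).1]
        congr 2
        rw [mem_Ioo] at hj
        have h1 : l.1 < j.1 := hj.1
        rw [Nat.cast_sub h1.le]; ring
    rw [e3]
    simp only [eval_mul, eval_C, eval_pow, eval_X, Nat.cast_zero, add_zero]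
    rw [← pow_mod ql dl hql (by omega) hcl, ← pow_mod qr dr hqr (by omega) hcr]
    ring
  have d0 : (GG 0).natDegree ≤ dl := by rw [g0]; exact natDegree_C_mul_X_pow_le _ _
  have dn : (GG n).natDegree ≤ dr := by rw [gn]; exact natDegree_C_mul_X_pow_le _ _
  have c0 : (GG 0).coeff dl ≠ 0 := by rw [g0]; simpa using hal
  have cn : (GG n).coeff dr ≠ 0 := by rw [gn]; simpa using har
  have hin : ∀ k, 0 < k → k < n → (GG k).natDegree ≤ min dl dr := by
    intro k h1 h2
    have h3 := r.2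
    have hmem : (⟨l.1 + k, by omega⟩ : Fin (2 * ρ + 1)) ∈ Ioo l r := by
      rw [mem_Ioo]
      constructor
      · show l.1 < l.1 + k
        omega
      · show l.1 + k < r.1
        omega
    have h4 := (hG _ hmem).2
    have h5 := gi _ hmem
    have h6 : (⟨l.1 + k, by omega⟩ : Fin (2 * ρ + 1)).1 - l.1 = k := by
      show l.1 + k - l.1 = k
      omega
    rw [h6] at h5
    rw [h5]; exact h4
  rcases lt_trichotomy dl dr with hlt | heq | hgt
  · refine caseC n dl dr hn0 h2l hdl hlt hdr GG ?_ dn c0 cn hs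
    intro j hj
    rcases Nat.eq_zero_or_pos j with h | h
    · rw [h]; exact d0
    · exact (hin j h hj).trans (min_le_left _ _)
  · subst heq
    refine caseA n dl h2l hdl GG ?_ c0 cn hs
    intro j hj
    rcases Nat.eq_zero_or_pos j with h | h
    · rw [h]; exact d0
    · rcases Nat.lt_or_ge j n with h' | h'
      · exact (hin j h h').trans (min_le_left _ _)
      · have : j = n := by omega
        rw [this]; exact dn
  · refine caseD n dl dr hn0 h2r hdl hgt hdr GG ?_ d0 c0 cn hs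
    intro j h hj
    rcases Nat.lt_or_ge j n with h' | h'
    · exact (hin j h h').trans (min_le_right _ _)
    · have : j = n := by omega
      rw [this]; exact dn

/-- every function on `ZMod p` is a polynomial function of degree at most `p - 1` -/
theorem exists_poly (p : ℕ) [hp : Fact p.Prime] (φ : ZMod p → ZMod p) :
    ∃ G : (ZMod p)[X], (∀ a, φ a = G.eval a) ∧ G.natDegree ≤ p - 1 := by
  classical
  refine ⟨Lagrange.interpolate univ id φ, ?_, ?_⟩
  · intro a
    have := Lagrange.eval_interpolate_at_node (s := (univ : Finset (ZMod p))) (v := id) φ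
      (Function.injective_id.injOn) (mem_univ a)
    simpa using this.symm
  · have h := Lagrange.degree_interpolate_lt (s := (univ : Finset (ZMod p))) (v := id) φ
      (Function.injective_id.injOn)
    rw [card_univ, ZMod.card] at h
    by_cases h0 : Lagrange.interpolate univ id φ = 0
    · rw [h0]; simp
    · have := (natDegree_lt_iff_degree_lt h0).mpr h
      omega

theorem main3 (p : ℕ) [hp : Fact p.Prime] (ρ : ℕ) (f : (Fin (2 * ρ + 1) → ZMod p) → ZMod p)
    (l r : Fin (2 * ρ + 1)) (hlr : l < r) (al ar : ZMod p) (hal : al ≠ 0) (har : ar ≠ 0)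
    (ql qr : ℕ) (hql : 1 ≤ ql) (hqr : 1 ≤ qr) (φ : Fin (2 * ρ + 1) → ZMod p → ZMod p)
    (hf : ∀ x, f x = (∑ j ∈ Ioo l r, φ j (x j)) + al * x l ^ ql + ar * x r ^ qr)
    (hsurj : Function.Surjective (globalMap ρ f)) :
    ¬ (p - 1 ∣ ql ∧ p - 1 ∣ qr ∧ p ≠ 2) := by
  rintro ⟨h1, h2, h3⟩
  have hp2 := hp.out.two_le
  have h := main p ρ f l r hlr al ar hal har ql qr hql hqr φ hf (p - 1) (p - 1) dvd_rfl dvd_rfl
    ?_ ?_ ?_ hsurj
  · rcases h with h | h
    · have : (p - 1) ∣ 1 := by
        have := Nat.dvd_gcd h1 (dvd_refl (p - 1))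
        rwa [h] at this
      have := Nat.le_of_dvd one_pos this
      omega
    · have : (p - 1) ∣ 1 := by
        have := Nat.dvd_gcd h2 (dvd_refl (p - 1))
        rwa [h] at this
      have := Nat.le_of_dvd one_pos this
      omega
  · exact ((Nat.modEq_zero_iff_dvd.mpr h1).trans (Nat.modEq_zero_iff_dvd.mpr dvd_rfl).symm)
  · exact ((Nat.modEq_zero_iff_dvd.mpr h2).trans (Nat.modEq_zero_iff_dvd.mpr dvd_rfl).symm)
  · intro j _
    obtain ⟨G, hG, hd⟩ := exists_poly p (φ j)
    exact ⟨G, hG, by simpa using hd⟩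

end Pool.Agent.H171.SepCA
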